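import Pool.Agent.Helper43_HAM.Stmts

/-!
# GAT: gates, FIL: filter
-/

set_option autoImplicit false

namespace Pool.Agent.HAM.H26

open Pool.Agent.HAM

theorem app_step (P A R : List (Fin 3)) (b : ℕ) (w : List Op) (F : List (Fin 3) → ZMod 2)
    (i a : ℕ) (hi : i = P.length) (ha : a = A.length) :
    app (.vtx i a b :: w) F (P ++ (A ++ R)) =
      ∑ v : Fin 3, if v ∈ A then 0 else app w F (P ++ (List.replicate b v ++ R)) := by
  subst hi ha
  have h1 : ((P ++ (A ++ R)).drop P.length).take A.length = A := by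
    rw [List.drop_left, List.take_left]
  have h2 : (P ++ (A ++ R)).drop (P.length + A.length) = R := by
    rw [← List.drop_drop, List.drop_left, List.drop_left]
  have h3 : (P ++ (A ++ R)).take P.length = P := List.take_left
  simp only [app]
  rw [h1, h2, h3]
  simp only [List.append_assoc]

theorem shift_cons (k i a b : ℕ) (w : List Op) :
    shift k (.vtx i a b :: w) = .vtx (i + k) a b :: shift k w := rfl

theorem shift_nil (k : ℕ) : shift k [] = [] := rfl

/-- evenness: the two colours different from `x` together give `F x` -/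
theorem even_two {F : List (Fin 3) → ZMod 2} (hF : EvenF F) (P R : List (Fin 3)) (x : Fin 3) :
    (∑ v : Fin 3, if v = x then 0 else F (P ++ (List.replicate 1 v ++ R))) =
      F (P ++ (List.replicate 1 x ++ R)) := by
  have h := hF P R
  have h2 : ∀ v : Fin 3, P ++ (List.replicate 1 v ++ R) = P ++ v :: R := fun v => by simp
  simp only [h2]
  have key : ∀ a b c : ZMod 2, a + b + c = 0 → (0 + b + c = a ∧ a + 0 + c = b ∧ a + b + 0 = c) := by
    decide
  rw [Fin.sum_univ_three] at h ⊢
  obtain ⟨k0, k1, k2⟩ := key _ _ _ h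
  fin_cases x
  · simpa using k0
  · simpa using k1
  · simpa using k2

theorem sum_id {Ω : Type} [Fintype Ω] [DecidableEq Ω] (f : Ω → ZMod 2) (ω : Ω) :
    (∑ ω' : Ω, if id ω' = ω then f ω' else 0) = f ω := by
  simp

theorem noRot_cons (i a b : ℕ) (w : List Op) (h : NoRot w) : NoRot (.vtx i a b :: w) := by
  intro k hk
  rcases List.mem_cons.mp hk with h' | h'
  · exact absurd h' (by simp)
  · exact h k h'

theorem noRot_nil : NoRot [] := fun k hk => by simp at hk

/-- a deterministic gate at the end of the wires -/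
theorem gate {Ω : Type} [Fintype Ω] [DecidableEq Ω] (L A : List (Ω → Fin 3)) (o : Ω → Fin 3)
    (b : ℕ) (hb : 1 ≤ b) (hA : 1 ≤ A.length) (hL : 1 ≤ L.length)
    (h : ∀ ω F, EvenF F → ∀ P R : List (Fin 3),
      (∑ v : Fin 3, if v ∈ A.map (· ω) then 0 else F (P ++ (List.replicate b v ++ R))) =
        F (P ++ (List.replicate b (o ω) ++ R))) :
    Tr id (L ++ A) (L ++ List.replicate b o) := by
  refine ⟨[.vtx L.length A.length b], noRot_cons _ _ _ _ noRot_nil, ?_, ?_⟩
  · simp only [legal, List.length_append, List.length_replicate]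
    omega
  · intro F hF l r ω
    rw [sum_id (fun ω' => F (l ++ ((L ++ List.replicate b o).map (· ω') ++ r))), shift_cons,
      shift_nil]
    have e1 : l ++ ((L ++ A).map (· ω) ++ r) = (l ++ L.map (· ω)) ++ (A.map (· ω) ++ r) := by
      simp [List.append_assoc]
    rw [e1, app_step (l ++ L.map (· ω)) (A.map (· ω)) r b [] F _ _
      (by simp [Nat.add_comm]) (by simp)]
    have e2 : l ++ ((L ++ List.replicate b o).map (· ω) ++ r) =
        (l ++ L.map (· ω)) ++ (List.replicate b (o ω) ++ r) := by
      simp [List.append_assoc]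
    rw [e2]
    exact h ω F hF _ _

/-- insertion of constants before the last wires -/
theorem addc (hX : TcxStmt) (hC : ConStmt) {Ω : Type} [Fintype Ω] [DecidableEq Ω]
    (c c' : List (Fin 3)) (R : List (Ω → Fin 3)) :
    Tr id (refs ++ (c.map cw ++ R)) (refs ++ (c'.map cw ++ R)) := by
  have h := hX Ω Ω id (refs ++ c.map cw) [] R (refs ++ c'.map cw) (hC Ω c c')
  simpa [List.append_assoc] using h

theorem tr_comp (hO : TcoStmt) {Ω : Type} [Fintype Ω] [DecidableEq Ω]
    {U U' U'' : List (Ω → Fin 3)} (h1 : Tr id U U') (h2 : Tr id U' U'') : Tr id U U'' :=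
  hO Ω Ω Ω id id U U' U'' h1 h2

/-- negation with copies -/
theorem notb (hO : TcoStmt) (hX : TcxStmt) (hC : ConStmt) {Ω : Type} [Fintype Ω] [DecidableEq Ω]
    (x : Ω → Bool) (b : ℕ) (hb : 1 ≤ b) :
    Tr id (refs ++ [bit x]) (refs ++ List.replicate b (bit fun ω => !x ω)) := by
  have h1 := addc hX hC (Ω := Ω) [] [1] [bit x]
  have h2 : Tr id (refs ++ [cw 1, bit x]) (refs ++ List.replicate b (bit fun ω => !x ω)) := by
    refine gate refs [cw 1, bit x] (bit fun ω => !x ω) b hb (by simp) (by simp [refs]) ?_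
    intro ω F hF P R
    rw [Fin.sum_univ_three]
    cases hx : x ω
    · simp [cw, bit, hx]
    · simp [cw, bit, hx]
  exact tr_comp hO h1 h2

/-- disjunction -/
theorem orb' (hO : TcoStmt) (hX : TcxStmt) (hC : ConStmt) {Ω : Type} [Fintype Ω] [DecidableEq Ω]
    (x y f : Ω → Bool) (hf : ∀ ω, f ω = (x ω || y ω)) :
    Tr id (refs ++ [bit x, bit y]) (refs ++ [bit f]) := by
  have h1 := addc hX hC (Ω := Ω) [] [0] [bit x, bit y]
  have h2 : Tr id (refs ++ [cw 0, bit x, bit y])
      (refs ++ List.replicate 1 (fun ω => if f ω = true then (1 : Fin 3) else 0)) := by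
    refine gate refs [cw 0, bit x, bit y] _ 1 le_rfl (by simp) (by simp [refs]) ?_
    intro ω F hF P R
    cases hx : x ω <;> cases hy : y ω
    · have h := even_two hF P R 0
      simpa [cw, bit, hx, hy, hf] using h
    all_goals
      rw [Fin.sum_univ_three]
      simp [cw, bit, hx, hy, hf]
  have h3 := addc hX hC (Ω := Ω) [] [0]
    (List.replicate 1 (fun ω => if f ω = true then (1 : Fin 3) else 0))
  have h4 : Tr id (refs ++ [cw 0, (fun ω => if f ω = true then (1 : Fin 3) else 0)])
      (refs ++ List.replicate 1 (bit f)) := by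
    refine gate refs _ _ 1 le_rfl (by simp) (by simp [refs]) ?_
    intro ω F hF P R
    cases hx : f ω
    · have h := even_two hF P R 0
      simpa [cw, bit, hx] using h
    · rw [Fin.sum_univ_three]
      simp [cw, bit, hx]
  exact tr_comp hO (tr_comp hO (tr_comp hO h1 h2) h3) h4

theorem orb (hO : TcoStmt) (hX : TcxStmt) (hC : ConStmt) {Ω : Type} [Fintype Ω] [DecidableEq Ω]
    (x y : Ω → Bool) :
    Tr id (refs ++ [bit x, bit y]) (refs ++ [bit fun ω => x ω || y ω]) :=
  orb' hO hX hC x y _ fun _ => rfl

theorem gat (hO : TcoStmt) (hX : TcxStmt) (_hP : TpeStmt) (hC : ConStmt) : GatStmt := by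
  intro Ω _ _ x y
  refine ⟨?_, ?_, orb hO hX hC x y, ?_, ?_⟩
  · have h1 := notb hO hX hC x 1 le_rfl
    have h2 := notb hO hX hC (fun ω => !x ω) 2 (by norm_num)
    have h3 := tr_comp hO h1 h2
    simpa [List.replicate] using h3
  · simpa [List.replicate] using notb hO hX hC x 1 le_rfl
  · have h1 := addc hX hC (Ω := Ω) [] [2] [bit x]
    have h2 := orb hO hX hC (fun _ => true) x
    have h3 : Tr id (refs ++ [cw 2, bit x]) (refs ++ [bit fun ω => true || x ω]) := by
      have e : (bit fun _ : Ω => true) = cw 2 := by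
        funext ω
        simp [bit, cw]
      rw [e] at h2
      exact h2
    have h4 := hC Ω [2] []
    have e2 : (bit fun ω : Ω => true || x ω) = cw 2 := by
      funext ω
      simp [bit, cw]
    rw [e2] at h3
    have h5 := tr_comp hO (tr_comp hO h1 h3) h4
    simpa using h5
  · have h := hC Ω [] [2]
    have e : (bit fun _ : Ω => true) = cw 2 := by
      funext ω
      simp [bit, cw]
    rw [e]
    simpa using h

/-- the word of the filter -/
theorem fil (hO : TcoStmt) (hX : TcxStmt) (_hP : TpeStmt) (hC : ConStmt) : FilStmt := by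
  intro Ω _ _ g
  have h1 := addc hX hC (Ω := Ω) [] [1, 2, 0] [bit g]
  have h2 : Tr (Subtype.val : {ω // g ω = true} → Ω) (refs ++ ([1, 2, 0].map cw ++ [bit g]))
      (refs ++ [cw 0]) := by
    refine ⟨[.vtx 5 2 1, .vtx 3 3 1],
      noRot_cons _ _ _ _ (noRot_cons _ _ _ _ noRot_nil), ?_, ?_⟩
    · simp [legal, refs]
    · intro F hF l r ω
      have hsum : (∑ ω' : {ω // g ω = true}, if ω'.val = ω then
          F (l ++ ((refs ++ [cw 0] : List ({ω // g ω = true} → Fin 3)).map (· ω') ++ r)) else 0) =
          if g ω = true then F (l ++ ([1, 2, 2, 0] ++ r)) else 0 := by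
        have hc : ∀ ω' : {ω // g ω = true},
            F (l ++ ((refs ++ [cw 0] : List ({ω // g ω = true} → Fin 3)).map (· ω') ++ r)) =
            F (l ++ ([1, 2, 2, 0] ++ r)) := fun ω' => rfl
        simp only [hc]
        by_cases hg : g ω = true
        · rw [if_pos hg, Finset.sum_eq_single ⟨ω, hg⟩]
          · simp
          · intro b _ hb
            rw [if_neg]
            intro hcon
            exact hb (Subtype.ext hcon)
          · intro hcon
            exact absurd (Finset.mem_univ _) hcon
        · rw [if_neg hg]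
          refine Finset.sum_eq_zero fun b _ => if_neg fun hcon => hg ?_
          rw [← hcon]
          exact b.2
      rw [hsum, shift_cons, shift_cons, shift_nil]
      have e1 : l ++ ((refs ++ ([1, 2, 0].map cw ++ [bit g]) : List (Ω → Fin 3)).map (· ω) ++ r) =
          (l ++ [1, 2, 2, 1, 2]) ++ ([0, bit g ω] ++ r) := by
        simp [refs, cw, List.append_assoc]
      rw [e1, app_step (l ++ [1, 2, 2, 1, 2]) [0, bit g ω] r 1 _ F _ _
        (by simp [Nat.add_comm]) (by simp)]
      have e2 : ∀ v : Fin 3, app [.vtx (3 + l.length) 3 1] F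
          ((l ++ [1, 2, 2, 1, 2]) ++ (List.replicate 1 v ++ r)) =
          if v = 0 then 0 else F (l ++ ([1, 2, 2, 0] ++ r)) := by
        intro v
        have e3 : (l ++ [1, 2, 2, 1, 2]) ++ (List.replicate 1 v ++ r) =
            (l ++ [1, 2, 2]) ++ ([1, 2, v] ++ r) := by
          simp [List.append_assoc, List.replicate]
        rw [e3, app_step (l ++ [1, 2, 2]) [1, 2, v] r 1 [] F _ _
          (by simp [Nat.add_comm]) (by simp), Fin.sum_univ_three]
        fin_cases v <;> simp [app, List.append_assoc, List.replicate]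
      simp only [e2]
      rw [Fin.sum_univ_three]
      have key : ∀ a : ZMod 2, a + a = 0 := by decide
      cases hg : g ω
      · simp [bit, hg, key]
      · simp [bit, hg]
  have h3 := hC {ω // g ω = true} [0] []
  have h4 := hO Ω {ω // g ω = true} {ω // g ω = true} Subtype.val id _ _ _
    (hO Ω Ω {ω // g ω = true} id Subtype.val _ _ _ h1 h2) h3
  simpa using h4

end Pool.Agent.HAM.H26
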